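import Pool.Agent.Helper68.QC.St4

/-!
Project QD, part M, module HOA: holomorphic dependence, affine families.
-/

set_option autoImplicit false

namespace Pool.Agent.Helper8.QCM

open Pool.Agent.Helper68.QC
open MeasureTheory Set Filter Topology Complex
open scoped ContDiff ComplexConjugate ENNReal

theorem pHOA : Pool.Agent.Helper68.QC.StHOA := by
  intro hSMO hHPS hUNI hGRO hCON hPBL k C μ₀ μ₁ V hk hm0 hm1 hb0 hb1 hV hVk z
  by_cases hk0 : 0 ≤ k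
  swap
  · intro t ht
    exact absurd ((norm_nonneg _).trans (hVk t ht 0)) hk0
  obtain ⟨hS1, hS2, hS3⟩ := hSMO
  -- the smooth coefficients
  have hmt : ∀ t : ℂ, Measurable (fun y => μ₀ y + t * μ₁ y) := fun t =>
    hm0.add (measurable_const.mul hm1)
  have hsum : ∀ (n : ℕ) (t y : ℂ), sm n μ₀ y + t * sm n μ₁ y =
      sm n (fun y => μ₀ y + t * μ₁ y) y := fun n t y =>
    (hS2 n C μ₀ μ₁ t hm0 hm1 hb0 hb1 y).symm
  have hbnd : ∀ (n : ℕ), ∀ t ∈ V, ∀ y, ‖sm n (fun y => μ₀ y + t * μ₁ y) y‖ ≤ k :=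
    fun n t ht => (hS1 n k _ (hmt t) (hVk t ht)).2.1
  have hBel : ∀ (n : ℕ), ∀ t ∈ V, Bel k (sm n (fun y => μ₀ y + t * μ₁ y)) := fun n t ht =>
    ⟨(hS1 n k _ (hmt t) (hVk t ht)).1.continuous.measurable, hbnd n t ht⟩
  have hex : ∀ n : ℕ, ∃ W : ℂ → ℂ ≃ₜ ℂ, (∀ t ∈ V, QS k (W t) ∧ W t 0 = 0 ∧ W t 1 = 1 ∧
      ∀ z, dzb (W t) z = (sm n μ₀ z + t * sm n μ₁ z) * dz (W t) z) ∧
      ∀ z, DifferentiableOn ℂ (fun t => W t z) V := by
    intro n
    obtain ⟨a1, -, a3, a4⟩ := hS1 n C μ₀ hm0 hb0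
    obtain ⟨b1, -, b3, b4⟩ := hS1 n C μ₁ hm1 hb1
    refine hHPS k hk0 hk (2 * ((n : ℝ) + 1)) (sm n μ₀) (sm n μ₁) V (by positivity) a1 b1 a3 a4 b3 b4
      hV ?_
    intro t ht y
    rw [hsum]
    exact hbnd n t ht y
  choose W hW hWh using hex
  have hnq : ∀ (n : ℕ), ∀ t ∈ V, W n t = nq (sm n (fun y => μ₀ y + t * μ₁ y)) := by
    intro n t ht
    obtain ⟨w1, w2, w3, w4⟩ := hW n t ht
    refine hUNI k hk _ (hBel n t ht) (W n t) w2 w3 ∅ Set.finite_empty ?_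
    refine ⟨_, _, wd_smooth w1.smooth _, Filter.Eventually.of_forall fun y => ?_⟩
    rw [w4 y, hsum]
  obtain ⟨M, hM⟩ := hGRO k hk ‖z‖
  refine hPBL V M (fun n t => W n t z) _ hV (fun n => hWh n z) ?_ ?_
  · intro n t ht
    rw [hnq n t ht]
    exact (hM _ (hBel n t ht) z le_rfl).1
  · intro t ht
    have h1 := (hCON k hk ℕ atTop (fun n => sm n (fun y => μ₀ y + t * μ₁ y))
      (fun y => μ₀ y + t * μ₁ y) (fun n => hBel n t ht)
      ⟨hmt t, hVk t ht⟩ (fun R => hS3 k _ (hmt t) (hVk t ht) R) ‖z‖).1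
    have h2 := h1.tendsto_at (x := z) (by simp)
    refine h2.congr fun n => ?_
    rw [hnq n t ht]

end Pool.Agent.Helper8.QCM
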