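import Pool.Agent.Helper68.QC.St2

/-!
Project QD, part M, module PRX: composition with a conformal map on the right.
-/

set_option autoImplicit false

namespace Pool.Agent.Helper8.QCM

open Pool.Agent.Helper68.QC
open MeasureTheory Set Filter Topology Complex
open scoped ContDiff ComplexConjugate ENNReal

/-- preimages of null sets under conformal maps are null -/
private theorem null_preimage {V : Set ℂ} {φ : ℂ → ℂ} (hV : IsOpen V)
    (hd : DifferentiableOn ℂ φ V) (hi : InjOn φ V) (hn : ∀ z ∈ V, deriv φ z ≠ 0) {N : Set ℂ}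
    (hN : volume N = 0) : volume (V ∩ φ ⁻¹' N) = 0 := by
  have hl : LeftInvOn (Function.invFunOn φ V) φ V := hi.leftInvOn_invFunOn
  have hsub : V ∩ φ ⁻¹' N ⊆ Function.invFunOn φ V '' (φ '' V ∩ N) := by
    rintro z ⟨hz, hzN⟩
    exact ⟨φ z, ⟨mem_image_of_mem φ hz, hzN⟩, hl hz⟩
  refine measure_mono_null hsub ?_
  refine addHaar_image_eq_zero_of_differentiableOn_of_addHaar_eq_zero volume ?_
    (measure_mono_null inter_subset_right hN)
  rintro y ⟨⟨z, hz, rfl⟩, -⟩
  have h1 : HasStrictDerivAt φ (deriv φ z) z := (hd.analyticAt (hV.mem_nhds hz)).hasStrictDerivAt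
  have h2 : map φ (𝓝 z) = 𝓝 (φ z) := h1.map_nhds_eq (hn z hz)
  have h3 : ContinuousAt (Function.invFunOn φ V) (φ z) := by
    unfold ContinuousAt
    rw [← h2, tendsto_map'_iff, hl hz]
    refine tendsto_id.congr' ?_
    filter_upwards [hV.mem_nhds hz] with x hx
    exact (hl hx).symm
  have h4 : ∀ᶠ y in 𝓝 (φ z), φ (Function.invFunOn φ V y) = y := by
    rw [← h2, eventually_map]
    filter_upwards [hV.mem_nhds hz] with x hx
    rw [hl hx]
  have h5 : HasDerivAt φ (deriv φ z) (Function.invFunOn φ V (φ z)) := by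
    rw [hl hz]
    exact h1.hasDerivAt
  have h6 := HasDerivAt.of_local_left_inverse h3 h5 (hn z hz) h4
  exact (h6.differentiableAt.restrictScalars ℝ).differentiableWithinAt

theorem pPRX : Pool.Agent.Helper68.QC.StPRX := by
  intro hPRW μ U V f φ hU hV hd hi hm hn hsol
  obtain ⟨a, b, hw, hab⟩ := hsol
  refine ⟨_, _, hPRW U V f a b φ hU hV hd hi hm hn hw, ?_⟩
  rw [ae_restrict_iff' hU.measurableSet] at hab
  rw [ae_restrict_iff' hV.measurableSet]
  have h0 := null_preimage hV hd hi hn (ae_iff.1 hab)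
  rw [ae_iff]
  refine measure_mono_null ?_ h0
  intro z hz
  rw [Set.mem_ofPred_eq, Classical.not_imp] at hz
  obtain ⟨hzV, hze⟩ := hz
  refine ⟨hzV, ?_⟩
  show ¬ (φ z ∈ U → b (φ z) = μ (φ z) * a (φ z))
  intro h
  refine hze ?_
  have h1 := h (hm hzV)
  have h2 := hn z hzV
  rw [h1]
  field_simp

end Pool.Agent.Helper8.QCM
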