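import Pool.Agent.Helper68.QC.St6

/-!
Project QD, part M, module STI: torus inequality.
-/

set_option autoImplicit false

namespace Pool.Agent.Helper8.QCM

open Pool.Agent.Helper68.QC
open MeasureTheory Set Filter Topology Complex
open scoped ContDiff ComplexConjugate ENNReal

private theorem cs {m : Measure ℂ} {f g : ℂ → ℝ} (hf : Integrable (fun x => f x ^ 2) m)
    (hg : Integrable (fun x => g x ^ 2) m) (hfg : Integrable (fun x => f x * g x) m) :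
    (∫ x, f x * g x ∂m) ^ 2 ≤ (∫ x, f x ^ 2 ∂m) * ∫ x, g x ^ 2 ∂m := by
  have h : ∀ t : ℝ, 0 ≤ (∫ x, f x ^ 2 ∂m) * (t * t) + (-2 * ∫ x, f x * g x ∂m) * t +
      ∫ x, g x ^ 2 ∂m := by
    intro t
    have h1 : 0 ≤ ∫ x, (t * f x - g x) ^ 2 ∂m := integral_nonneg fun x => sq_nonneg _
    have h2 : ∫ x, (t * f x - g x) ^ 2 ∂m = (∫ x, f x ^ 2 ∂m) * (t * t) +
        (-2 * ∫ x, f x * g x ∂m) * t + ∫ x, g x ^ 2 ∂m := by
      have e : ∀ x, (t * f x - g x) ^ 2 =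
          (t * t) * f x ^ 2 + ((-2 * t) * (f x * g x) + g x ^ 2) := fun x => by ring
      have i1 : Integrable (fun x => (t * t) * f x ^ 2) m := hf.const_mul _
      have i2 : Integrable (fun x => (-2 * t) * (f x * g x)) m := hfg.const_mul _
      have i3 : Integrable (fun x => (-2 * t) * (f x * g x) + g x ^ 2) m := i2.add hg
      rw [integral_congr_ae (Filter.Eventually.of_forall e), integral_add i1 i3,
        integral_add i2 hg, integral_const_mul, integral_const_mul]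
      ring
    rw [← h2]
    exact h1
  have h3 := discrim_le_zero h
  unfold discrim at h3
  nlinarith

theorem pSTI : Pool.Agent.Helper68.QC.StSTI := by
  intro hSt k hk0 hk μ hμ l hl hinv
  obtain ⟨l', a, b, hWD, hb, h1, h2, h3, h4, h5, h6, -⟩ := hSt k hk0 hk μ hμ l hl hinv
  refine ⟨l', h1, h2, h3, ?_⟩
  -- the annulus
  have hann : MeasurableSet (ann l) := by
    unfold ann
    exact (measurableSet_le measurable_const measurable_norm).inter
      (measurableSet_lt measurable_norm measurable_const)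
  have hsub : ann l ⊆ Metric.closedBall (0 : ℂ) (Real.exp l.re) := by
    intro z hz
    rw [mem_closedBall_zero_iff]
    exact hz.2.le
  have hfin : volume (ann l) < (⊤ : ℝ≥0∞) :=
    lt_of_le_of_lt (measure_mono hsub) measure_closedBall_lt_top
  have hfin' : IsFiniteMeasure (volume.restrict (ann l)) := ⟨by
    rw [Measure.restrict_apply_univ]
    exact hfin⟩
  -- the two functions
  obtain ⟨f, hf⟩ : ∃ f : ℂ → ℝ, f = fun ξ => ‖μ ξ‖ / ‖ξ‖ := ⟨_, rfl⟩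
  obtain ⟨g, hg⟩ : ∃ g : ℂ → ℝ, g = fun ξ => ‖a ξ‖ / ‖nq μ ξ‖ := ⟨_, rfl⟩
  have hfm : Measurable f := by
    rw [hf]
    exact hμ.meas.norm.div measurable_norm
  have ham : AEStronglyMeasurable a (volume.restrict (ann l)) := by
    have := (hWD.l2a (Metric.closedBall (0 : ℂ) (Real.exp l.re)) (subset_univ _)
      (isCompact_closedBall _ _)).1
    exact this.mono_measure (Measure.restrict_mono hsub le_rfl)
  have hgm : AEStronglyMeasurable g (volume.restrict (ann l)) := by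
    rw [hg]
    exact (ham.norm.aemeasurable.div
      ((nq μ).continuous.norm.measurable.aemeasurable)).aestronglyMeasurable
  have hf0 : ∀ ξ, 0 ≤ f ξ := fun ξ => by rw [hf]; positivity
  have hg0 : ∀ ξ, 0 ≤ g ξ := fun ξ => by rw [hg]; positivity
  have hfk : ∀ ξ ∈ ann l, f ξ ≤ k := by
    intro ξ hξ
    rw [hf]
    have h7 : (1 : ℝ) ≤ ‖ξ‖ := hξ.1
    show ‖μ ξ‖ / ‖ξ‖ ≤ k
    rw [div_le_iff₀ (by linarith)]
    calc ‖μ ξ‖ ≤ k := hμ.le ξ
      _ ≤ k * ‖ξ‖ := le_mul_of_one_le_right hk0 h7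
  have hf2 : Integrable (fun ξ => f ξ ^ 2) (volume.restrict (ann l)) := by
    refine Integrable.of_bound (hfm.pow_const 2).aestronglyMeasurable (k ^ 2) ?_
    filter_upwards [ae_restrict_mem hann] with ξ hξ
    rw [Real.norm_eq_abs, abs_of_nonneg (sq_nonneg _)]
    exact pow_le_pow_left₀ (hf0 ξ) (hfk ξ hξ) 2
  have hg2 : Integrable (fun ξ => g ξ ^ 2) (volume.restrict (ann l)) := by
    have e : (fun ξ => g ξ ^ 2) = fun ξ => ‖a ξ‖ ^ 2 / ‖nq μ ξ‖ ^ 2 := by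
      rw [hg]
      funext ξ
      rw [div_pow]
    rw [e]
    exact h4
  have hfg : Integrable (fun ξ => f ξ * g ξ) (volume.restrict (ann l)) := by
    refine Integrable.mono' (hf2.add hg2) (hfm.aestronglyMeasurable.mul hgm) ?_
    refine Filter.Eventually.of_forall fun ξ => ?_
    rw [Real.norm_eq_abs, abs_of_nonneg (mul_nonneg (hf0 ξ) (hg0 ξ))]
    show f ξ * g ξ ≤ f ξ ^ 2 + g ξ ^ 2
    nlinarith [sq_nonneg (f ξ - g ξ), sq_nonneg (f ξ), sq_nonneg (g ξ)]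
  have h7 := cs hf2 hg2 hfg
  have h8 : Real.pi * ‖l' - l‖ ≤ ∫ ξ in ann l, f ξ * g ξ := by
    have e1 : Real.pi * ‖l' - l‖ = ‖(Real.pi : ℂ) * (l' - l)‖ := by
      rw [norm_mul, Complex.norm_real, Real.norm_of_nonneg Real.pi_pos.le]
    rw [e1, h6]
    refine (norm_integral_le_integral_norm _).trans (le_of_eq ?_)
    refine integral_congr_ae (Filter.Eventually.of_forall fun ξ => ?_)
    show ‖b ξ / (nq μ ξ * ξ)‖ = f ξ * g ξ
    rw [hb, norm_div, norm_mul, norm_mul, hf, hg]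
    simp only
    rw [div_mul_div_comm, mul_comm ‖ξ‖]
  have eM : ∫ ξ in ann l, ‖μ ξ‖ ^ 2 / ‖ξ‖ ^ 2 = ∫ ξ in ann l, f ξ ^ 2 := by
    refine integral_congr_ae (Filter.Eventually.of_forall fun ξ => ?_)
    show ‖μ ξ‖ ^ 2 / ‖ξ‖ ^ 2 = f ξ ^ 2
    rw [hf, div_pow]
  have eA : ∫ ξ in ann l, ‖a ξ‖ ^ 2 / ‖nq μ ξ‖ ^ 2 = ∫ ξ in ann l, g ξ ^ 2 := by
    refine integral_congr_ae (Filter.Eventually.of_forall fun ξ => ?_)
    show ‖a ξ‖ ^ 2 / ‖nq μ ξ‖ ^ 2 = g ξ ^ 2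
    rw [hg, div_pow]
  rw [eM]
  rw [eA] at h5
  have hpi := Real.pi_pos
  have hM0 : 0 ≤ ∫ ξ in ann l, f ξ ^ 2 := integral_nonneg fun ξ => sq_nonneg _
  have hk2 : 0 ≤ 1 - k ^ 2 := by nlinarith
  have h9 : (Real.pi * ‖l' - l‖) ^ 2 ≤ (∫ ξ in ann l, f ξ ^ 2) * ∫ ξ in ann l, g ξ ^ 2 :=
    (pow_le_pow_left₀ (by positivity) h8 2).trans h7
  have h10 : (1 - k ^ 2) * (Real.pi * ‖l' - l‖) ^ 2 ≤
      (∫ ξ in ann l, f ξ ^ 2) * (2 * Real.pi * l'.re) := by
    calc (1 - k ^ 2) * (Real.pi * ‖l' - l‖) ^ 2 ≤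
          (1 - k ^ 2) * ((∫ ξ in ann l, f ξ ^ 2) * ∫ ξ in ann l, g ξ ^ 2) :=
          mul_le_mul_of_nonneg_left h9 hk2
      _ = (∫ ξ in ann l, f ξ ^ 2) * ((1 - k ^ 2) * ∫ ξ in ann l, g ξ ^ 2) := by ring
      _ ≤ _ := mul_le_mul_of_nonneg_left h5 hM0
  have h11 : Real.pi * (Real.pi * (1 - k ^ 2) * ‖l' - l‖ ^ 2) ≤
      Real.pi * (2 * l'.re * ∫ ξ in ann l, f ξ ^ 2) := by
    calc Real.pi * (Real.pi * (1 - k ^ 2) * ‖l' - l‖ ^ 2) =
          (1 - k ^ 2) * (Real.pi * ‖l' - l‖) ^ 2 := by ring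
      _ ≤ _ := h10
      _ = Real.pi * (2 * l'.re * ∫ ξ in ann l, f ξ ^ 2) := by ring
  exact le_of_mul_le_mul_left h11 hpi

end Pool.Agent.Helper8.QCM
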