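import Pool.Agent.Helper68.QC.St4

/-!
Project QD, part M, module SYX: reflection in the real axis.
-/

set_option autoImplicit false

namespace Pool.Agent.Helper8.QCM

open Pool.Agent.Helper68.QC
open MeasureTheory Set Filter Topology Complex
open scoped ContDiff ComplexConjugate ENNReal

private theorem mp_conj : MeasurePreserving (fun z : ℂ => conj z) volume volume :=
  Complex.conjLIE.measurePreserving

private theorem int_conj (g : ℂ → ℂ) : ∫ z, g (conj z) = ∫ z, g z :=
  mp_conj.integral_comp Complex.conjLIE.toHomeomorph.measurableEmbedding g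

private theorem star_fderiv {φ : ℂ → ℂ} (hφ : Differentiable ℝ φ) (z v : ℂ) :
    fderiv ℝ (fun z => conj (φ (conj z))) z v = conj (fderiv ℝ φ (conj z) (conj v)) := by
  have h1 : HasFDerivAt (fun z : ℂ => conj z) (Complex.conjCLE : ℂ →L[ℝ] ℂ) z :=
    Complex.conjCLE.hasFDerivAt
  have h2 : HasFDerivAt φ (fderiv ℝ φ (conj z)) (conj z) := (hφ (conj z)).hasFDerivAt
  have h3 : HasFDerivAt (fun z : ℂ => conj z) (Complex.conjCLE : ℂ →L[ℝ] ℂ) (φ (conj z)) :=
    Complex.conjCLE.hasFDerivAt
  have h4 := h3.comp z (h2.comp z h1)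
  have h5 : HasFDerivAt (fun z => conj (φ (conj z))) ((Complex.conjCLE : ℂ →L[ℝ] ℂ).comp
      ((fderiv ℝ φ (conj z)).comp (Complex.conjCLE : ℂ →L[ℝ] ℂ))) z := h4
  rw [h5.fderiv]
  simp

private theorem star_dz {φ : ℂ → ℂ} (hφ : Differentiable ℝ φ) (z : ℂ) :
    dz (fun z => conj (φ (conj z))) z = conj (dz φ (conj z)) := by
  unfold dz
  rw [star_fderiv hφ, star_fderiv hφ, map_div₀, map_sub, map_mul, map_one, Complex.conj_I,
    map_neg, map_neg]
  have e : (starRingEnd ℂ) 2 = 2 := map_ofNat _ 2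
  simp [e]

private theorem star_dzb {φ : ℂ → ℂ} (hφ : Differentiable ℝ φ) (z : ℂ) :
    dzb (fun z => conj (φ (conj z))) z = conj (dzb φ (conj z)) := by
  unfold dzb
  rw [star_fderiv hφ, star_fderiv hφ, map_div₀, map_add, map_mul, map_one, Complex.conj_I,
    map_neg, map_neg]
  have e : (starRingEnd ℂ) 2 = 2 := map_ofNat _ 2
  simp [e]

private theorem star_tst {φ : ℂ → ℂ} (hφ : Tst univ φ) :
    Tst univ (fun z => conj (φ (conj z))) := by
  refine ⟨?_, ?_, subset_univ _⟩
  · exact Complex.conjCLE.contDiff.comp (hφ.smooth.comp Complex.conjCLE.contDiff)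
  · have h1 : HasCompactSupport (fun z => φ (conj z)) :=
      hφ.cpt.comp_homeomorph Complex.conjLIE.toHomeomorph
    exact h1.comp_left (g := fun z : ℂ => conj z) (map_zero _)

private theorem star_L2 {a : ℂ → ℂ} (ha : L2 univ a) : L2 univ (fun z => conj (a (conj z))) := by
  intro K _ hK
  have h1 : IsCompact ((fun z : ℂ => conj z) ⁻¹' K) :=
    Complex.conjLIE.toHomeomorph.isCompact_preimage.2 hK
  have h2 := ha _ (subset_univ _) h1
  have h3 : MeasurePreserving (fun z : ℂ => conj z)
      (volume.restrict ((fun z : ℂ => conj z) ⁻¹' ((fun z : ℂ => conj z) ⁻¹' K)))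
      (volume.restrict ((fun z : ℂ => conj z) ⁻¹' K)) :=
    mp_conj.restrict_preimage h1.measurableSet
  have h4 : (fun z : ℂ => conj z) ⁻¹' ((fun z : ℂ => conj z) ⁻¹' K) = K := by
    ext z
    simp
  rw [h4] at h3
  have h5 := h2.comp_measurePreserving h3
  exact (Complex.conjCLE : ℂ →L[ℝ] ℂ).comp_memLp' h5

private theorem star_WD {w a b : ℂ → ℂ} (h : WD univ w a b) :
    WD univ (fun z => conj (w (conj z))) (fun z => conj (a (conj z)))
      (fun z => conj (b (conj z))) := by
  have key : ∀ (u v φ ψ : ℂ → ℂ), ∫ z, u z * conj (φ (conj z)) = - ∫ z, v z * conj (ψ (conj z)) →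
      ∫ z, conj (u (conj z)) * φ z = - ∫ z, conj (v (conj z)) * ψ z := by
    intro u v φ ψ h
    have e : ∀ u φ : ℂ → ℂ, ∫ z, conj (u (conj z)) * φ z =
        conj (∫ z, u z * conj (φ (conj z))) := by
      intro u φ
      rw [← integral_conj, ← int_conj]
      refine integral_congr_ae (Filter.Eventually.of_forall fun z => ?_)
      simp
    rw [e, e, h, map_neg]
  refine ⟨?_, star_L2 h.l2a, star_L2 h.l2b, ?_, ?_⟩
  · have h1 : Continuous w := continuousOn_univ.1 h.cont
    exact (Complex.continuous_conj.comp (h1.comp Complex.continuous_conj)).continuousOn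
  · intro φ hφ
    have h1 := h.dz _ (star_tst hφ)
    refine key w a (dz φ) φ ?_
    rw [← h1]
    refine integral_congr_ae (Filter.Eventually.of_forall fun z => ?_)
    simp only
    rw [star_dz hφ.differentiable]
  · intro φ hφ
    have h1 := h.dzb _ (star_tst hφ)
    refine key w b (dzb φ) φ ?_
    rw [← h1]
    refine integral_congr_ae (Filter.Eventually.of_forall fun z => ?_)
    simp only
    rw [star_dzb hφ.differentiable]

theorem pSYX : Pool.Agent.Helper68.QC.StSYX := by
  intro hEX hUNI k hk μ hμ hsym z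
  obtain ⟨h0, h1, a, b, hw, hab⟩ := hEX k hk μ hμ
  rw [Measure.restrict_univ] at hab
  obtain ⟨f, hf⟩ : ∃ f : ℂ ≃ₜ ℂ, ∀ z, f z = conj (nq μ (conj z)) :=
    ⟨Complex.conjLIE.toHomeomorph.trans ((nq μ).trans Complex.conjLIE.toHomeomorph),
      fun z => rfl⟩
  have hf' : (f : ℂ → ℂ) = fun z => conj (nq μ (conj z)) := funext hf
  have h2 : f = nq μ := by
    refine hUNI k hk μ hμ f ?_ ?_ ∅ Set.finite_empty ?_
    · rw [hf, map_zero, h0, map_zero]
    · rw [hf, map_one, h1, map_one]
    · rw [compl_empty, hf']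
      refine ⟨_, _, star_WD hw, ?_⟩
      rw [Measure.restrict_univ]
      filter_upwards [hsym, mp_conj.quasiMeasurePreserving.ae hab] with z hz1 hz2
      rw [hz2, map_mul, hz1, Complex.conj_conj]
  have h3 := hf z
  rw [h2] at h3
  rw [h3, Complex.conj_conj]

end Pool.Agent.Helper8.QCM
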